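import Pool.Agent.CBSq.Final

/-!
# Squares of chordal bipartite graphs are recognised in polynomial time

One Turing machine decides for every finite graph `G`, given by its adjacency matrix, in polynomial
time whether there is a chordal bipartite graph `H` on the same vertices with `H² = G`.
-/

set_option autoImplicit false

namespace Pool.Agent.Results.MP_47b6b2_lc.SquareCase

open SimpleGraph Pool.Agent.CBSq Turing

open Classical in
/-- **The case `k = 2` of the problem is in P.** -/
theorem result :
    ∃ (M : FinTM2) (e₀ : M.Γ M.k₀ ≃ Bool) (e₁ : M.Γ M.k₁ ≃ Bool) (k : ℕ),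
      ∀ (n : ℕ) (G : SimpleGraph (Fin n)),
        Nonempty (TM2OutputsInTime M ((codeGraph G).map e₀.symm)
          (some ([decide (HasRoot 2 G)].map e₁.symm)) (((codeGraph G).length + 1) ^ k)) :=
  machine_of_pf pf_algB (fun _ G => HasRoot 2 G) fun _ G => algB_iff G

end Pool.Agent.Results.MP_47b6b2_lc.SquareCase
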